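import Pool.Agent.Helper73.LR.Stmts

/-!
# POL: the cap operator maps powers of linear forms to polynomials in that linear form
-/

open MeasureTheory Set Metric Real Polynomial
open scoped RealInnerProductSpace ENNReal
open Pool.Agent.Helper16.Buoy (E)
open Pool.Agent.Helper73.LR

namespace Pool.Agent.Helper12.LR.Pol

/-- Mixed moments. -/
noncomputable def MM {n : ℕ} (t : ℝ) (v w : E n) (d k : ℕ) : ℝ :=
  ∫ x : SS n, max (inner ℝ v (x : E n) - t) 0 *
    ((inner ℝ v (x : E n)) ^ (d - k) * (inner ℝ w (x : E n)) ^ k) ∂(sg n)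

theorem exists_equiv {n : ℕ} (hn : 3 ≤ n) {v w v' w' : E n} (hv : ‖v‖ = 1) (hw : ‖w‖ = 1)
    (hvw : inner ℝ v w = 0) (hv' : ‖v'‖ = 1) (hw' : ‖w'‖ = 1) (hvw' : inner ℝ v' w' = 0) :
    ∃ R : E n ≃ₗᵢ[ℝ] E n, R v' = v ∧ R w' = w := by
  have key : ∀ a b : E n, ‖a‖ = 1 → ‖b‖ = 1 → inner ℝ a b = 0 →
      ∃ B : OrthonormalBasis (Fin n) ℝ (E n), B ⟨0, by omega⟩ = a ∧ B ⟨1, by omega⟩ = b := by
    intro a b ha hb hab
    have hba : inner ℝ b a = 0 := by rw [real_inner_comm]; exact hab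
    let i0 : Fin n := ⟨0, by omega⟩
    let i1 : Fin n := ⟨1, by omega⟩
    have h01 : i0 ≠ i1 := by
      intro h
      have := congrArg Fin.val h
      simp [i0, i1] at this
    let f : Fin n → E n := fun i => if i = i0 then a else b
    let s : Set (Fin n) := {i0, i1}
    have f0 : f i0 = a := by simp [f]
    have f1 : f i1 = b := by simp [f, h01.symm]
    have hs : ∀ i : s, i = ⟨i0, Or.inl rfl⟩ ∨ i = ⟨i1, Or.inr rfl⟩ := by
      rintro ⟨i, hi⟩
      rcases hi with hi | hi
      · left; exact Subtype.ext hi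
      · right; exact Subtype.ext hi
    have ho : Orthonormal ℝ (s.domRestrict f) := by
      constructor
      · intro i
        rcases hs i with h | h
        · rw [h]; change ‖f i0‖ = 1; rw [f0, ha]
        · rw [h]; change ‖f i1‖ = 1; rw [f1, hb]
      · intro i j hij
        rcases hs i with h | h <;> rcases hs j with h' | h'
        · exact absurd (h.trans h'.symm) hij
        · rw [h, h']; change inner ℝ (f i0) (f i1) = 0; rw [f0, f1, hab]
        · rw [h, h']; change inner ℝ (f i1) (f i0) = 0; rw [f0, f1, hba]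
        · exact absurd (h.trans h'.symm) hij
    obtain ⟨B, hB⟩ := ho.exists_orthonormalBasis_extension_of_card_eq (by simp [E])
    refine ⟨B, ?_, ?_⟩
    · have := hB i0 (Or.inl rfl)
      rw [f0] at this; exact this
    · have := hB i1 (Or.inr rfl)
      rw [f1] at this; exact this
  obtain ⟨B, hB0, hB1⟩ := key v w hv hw hvw
  obtain ⟨B', hB0', hB1'⟩ := key v' w' hv' hw' hvw'
  refine ⟨B'.equiv B (Equiv.refl _), ?_, ?_⟩
  · rw [← hB0', OrthonormalBasis.equiv_apply_basis]; simpa using hB0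
  · rw [← hB1', OrthonormalBasis.equiv_apply_basis]; simpa using hB1

theorem MM_rot (hrot : S_rot) {n : ℕ} (hn : 3 ≤ n) {v w v' w' : E n} (hv : ‖v‖ = 1) (hw : ‖w‖ = 1)
    (hvw : inner ℝ v w = 0) (hv' : ‖v'‖ = 1) (hw' : ‖w'‖ = 1) (hvw' : inner ℝ v' w' = 0)
    (t : ℝ) (d k : ℕ) : MM t v' w' d k = MM t v w d k := by
  obtain ⟨R, h1, h2⟩ := exists_equiv hn hv hw hvw hv' hw' hvw'
  have := hrot R (fun x : E n => max (inner ℝ v x - t) 0 *
    ((inner ℝ v x) ^ (d - k) * (inner ℝ w x) ^ k))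
  unfold MM
  rw [← this]
  refine integral_congr_ae (Filter.Eventually.of_forall fun x => ?_)
  have e1 : inner ℝ v (R (x : E n)) = inner ℝ v' (x : E n) := by
    rw [← h1, LinearIsometryEquiv.inner_map_map]
  have e2 : inner ℝ w (R (x : E n)) = inner ℝ w' (x : E n) := by
    rw [← h2, LinearIsometryEquiv.inner_map_map]
  simp only [e1, e2]

theorem MM_odd (hrot : S_rot) {n : ℕ} (hn : 3 ≤ n) {v w : E n} (hv : ‖v‖ = 1) (hw : ‖w‖ = 1)
    (hvw : inner ℝ v w = 0) (t : ℝ) (d k : ℕ) (hk : Odd k) : MM t v w d k = 0 := by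
  have h := MM_rot hrot hn hv (w' := -w) hw hvw hv (by simpa using hw) (by simp [hvw]) t d k
  have h2 : MM t v (-w) d k = - MM t v w d k := by
    unfold MM
    rw [← integral_neg]
    refine integral_congr_ae (Filter.Eventually.of_forall fun x => ?_)
    simp only [inner_neg_left, hk.neg_pow]
    ring
  linarith

instance {n : ℕ} : IsFiniteMeasure (sg n) := by unfold sg; infer_instance

theorem integrable_cont {n : ℕ} {f : SS n → ℝ} (hf : Continuous f) : Integrable f (sg n) := by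
  haveI : CompactSpace (SS n) := isCompact_iff_compactSpace.mp (isCompact_sphere _ _)
  exact hf.integrable_of_hasCompactSupport (HasCompactSupport.of_compactSpace f)

/-- expansion of the multiplier -/
theorem mult_eq {n : ℕ} (t : ℝ) (v w : E n) (d : ℕ) :
    mult t v w d = ∑ k ∈ Finset.range (d + 1), (d.choose k : ℝ) * (Complex.I ^ k).re * MM t v w d k := by
  unfold mult MM
  have : ∀ x : SS n, max (inner ℝ v (x : E n) - t) 0 *
      (((inner ℝ v (x : E n) : ℝ) + (inner ℝ w (x : E n) : ℝ) * Complex.I) ^ d).re =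
      ∑ k ∈ Finset.range (d + 1), (d.choose k : ℝ) * (Complex.I ^ k).re *
        (max (inner ℝ v (x : E n) - t) 0 *
          ((inner ℝ v (x : E n)) ^ (d - k) * (inner ℝ w (x : E n)) ^ k)) := by
    intro x
    set a : ℝ := inner ℝ v (x : E n)
    set b : ℝ := inner ℝ w (x : E n)
    rw [add_comm (a : ℂ), add_pow, Complex.re_sum, Finset.mul_sum]
    refine Finset.sum_congr rfl fun k hk => ?_
    have e : ((b : ℂ) * Complex.I) ^ k * (a : ℂ) ^ (d - k) * (d.choose k : ℂ) =
        ((b ^ k * a ^ (d - k) * (d.choose k : ℝ) : ℝ) : ℂ) * Complex.I ^ k := by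
      push_cast; ring
    rw [e, Complex.re_ofReal_mul]
    ring
  simp_rw [this]
  rw [integral_finsetSum]
  · refine Finset.sum_congr rfl fun k hk => ?_
    rw [integral_const_mul]
  · intro k hk
    refine (integrable_cont ?_).const_mul _
    fun_prop

/-- expansion of the operator -/
theorem KI_eq {n : ℕ} (t : ℝ) {e u w' : E n} {α β : ℝ} (he : e = α • u + β • w') (d : ℕ) :
    KI t (fun x : SS n => (inner ℝ e (x : E n)) ^ d) u =
      ∑ k ∈ Finset.range (d + 1), (d.choose k : ℝ) * (α ^ (d - k) * β ^ k) * MM t u w' d k := by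
  unfold KI MM
  have : ∀ x : SS n, max (inner ℝ u (x : E n) - t) 0 * (inner ℝ e (x : E n)) ^ d =
      ∑ k ∈ Finset.range (d + 1), (d.choose k : ℝ) * (α ^ (d - k) * β ^ k) *
        (max (inner ℝ u (x : E n) - t) 0 *
          ((inner ℝ u (x : E n)) ^ (d - k) * (inner ℝ w' (x : E n)) ^ k)) := by
    intro x
    rw [he, inner_add_left, inner_smul_left, inner_smul_left]
    simp only [conj_trivial]
    set a : ℝ := inner ℝ u (x : E n)
    set b : ℝ := inner ℝ w' (x : E n)
    rw [add_comm (α * a), add_pow, Finset.mul_sum]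
    refine Finset.sum_congr rfl fun k hk => ?_
    rw [mul_pow, mul_pow]
    ring
  simp_rw [this]
  rw [integral_finsetSum]
  · refine Finset.sum_congr rfl fun k hk => ?_
    rw [integral_const_mul]
  · intro k hk
    refine (integrable_cont ?_).const_mul _
    fun_prop

theorem exists_perp {n : ℕ} (hn : 3 ≤ n) {u : E n} (hu : ‖u‖ = 1) :
    ∃ w : E n, ‖w‖ = 1 ∧ inner ℝ u w = 0 := by
  have h0 : u ≠ 0 := by intro h; simp [h] at hu
  have hfin : Module.finrank ℝ (E n) = n := by simp [E]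
  have h1 : Module.finrank ℝ (Submodule.span ℝ {u} : Submodule ℝ (E n)) = 1 :=
    finrank_span_singleton h0
  have h2 := Submodule.finrank_add_finrank_orthogonal (Submodule.span ℝ {u} : Submodule ℝ (E n))
  have h3 : 0 < Module.finrank ℝ ((Submodule.span ℝ {u} : Submodule ℝ (E n))ᗮ) := by omega
  have : Nontrivial ((Submodule.span ℝ {u} : Submodule ℝ (E n))ᗮ) :=
    Module.finrank_pos_iff.mp h3
  obtain ⟨⟨y, hy⟩, hy0⟩ := exists_ne (0 : ((Submodule.span ℝ {u} : Submodule ℝ (E n))ᗮ))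
  have hy0' : y ≠ 0 := fun h => hy0 (Subtype.ext h)
  refine ⟨(‖y‖)⁻¹ • y, ?_, ?_⟩
  · rw [norm_smul, norm_inv, norm_norm, inv_mul_cancel₀ (norm_ne_zero_iff.mpr hy0')]
  · rw [inner_smul_right, Submodule.mem_orthogonal_singleton_iff_inner_right.mp hy, mul_zero]

theorem exists_decomp {n : ℕ} (hn : 3 ≤ n) {e u : E n} (he : ‖e‖ = 1) (hu : ‖u‖ = 1) :
    ∃ (w' : E n) (β : ℝ), ‖w'‖ = 1 ∧ inner ℝ u w' = 0 ∧ e = (inner ℝ e u : ℝ) • u + β • w' ∧
      β ^ 2 = 1 - (inner ℝ e u) ^ 2 := by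
  set α : ℝ := inner ℝ e u with hα
  set y : E n := e - α • u with hy
  have hperp : inner ℝ u y = 0 := by
    rw [hy, inner_sub_right, inner_smul_right, real_inner_self_eq_norm_sq, hu, real_inner_comm,
      ← hα]
    ring
  have hnorm : ‖y‖ ^ 2 = 1 - α ^ 2 := by
    rw [hy, norm_sub_sq_real, inner_smul_right, ← hα, norm_smul, he, hu, Real.norm_eq_abs, mul_one,
      sq_abs]
    ring
  by_cases h : y = 0
  · obtain ⟨w, hw1, hw2⟩ := exists_perp hn hu
    refine ⟨w, 0, hw1, hw2, ?_, ?_⟩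
    · rw [zero_smul, add_zero]; exact sub_eq_zero.mp h
    · rw [← hnorm, h]; simp
  · have hne : ‖y‖ ≠ 0 := norm_ne_zero_iff.mpr h
    refine ⟨(‖y‖)⁻¹ • y, ‖y‖, ?_, ?_, ?_, hnorm⟩
    · rw [norm_smul, norm_inv, norm_norm, inv_mul_cancel₀ hne]
    · rw [inner_smul_right, hperp, mul_zero]
    · rw [smul_smul, mul_inv_cancel₀ hne, one_smul, hy]
      abel

/-- the polynomial -/
noncomputable def PP (c : ℕ → ℝ) (d : ℕ) : ℝ[X] :=
  ∑ k ∈ Finset.range (d + 1), C ((d.choose k : ℝ) * c k) *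
    (if Even k then X ^ (d - k) * (1 - X ^ 2) ^ (k / 2) else 0)

theorem natDegree_q : (1 - X ^ 2 : ℝ[X]).natDegree ≤ 2 := by
  compute_degree

theorem coeff_q : (1 - X ^ 2 : ℝ[X]).coeff 2 = -1 := by
  rw [coeff_sub, coeff_one, coeff_X_pow]; norm_num

theorem natDegree_PP (c : ℕ → ℝ) (d : ℕ) : (PP c d).natDegree ≤ d := by
  refine natDegree_sum_le_of_forall_le _ _ fun k hk => ?_
  have hk' : k ≤ d := by simpa [Nat.lt_succ_iff] using hk
  refine (natDegree_C_mul_le _ _).trans ?_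
  split_ifs with he
  · obtain ⟨m, hm⟩ := he
    have hm2 : k / 2 = m := by omega
    rw [hm2]
    refine (natDegree_mul_le).trans ?_
    have h1 : (X ^ (d - k) : ℝ[X]).natDegree ≤ d - k := natDegree_X_pow_le _
    have h2 : ((1 - X ^ 2 : ℝ[X]) ^ m).natDegree ≤ m * 2 :=
      natDegree_pow_le.trans (Nat.mul_le_mul_left _ natDegree_q)
    omega
  · simp

theorem coeff_PP (c : ℕ → ℝ) (d : ℕ) : (PP c d).coeff d =
    ∑ k ∈ Finset.range (d + 1), (d.choose k : ℝ) * (if Even k then (-1 : ℝ) ^ (k / 2) else 0) * c k := by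
  unfold PP
  rw [finsetSum_coeff]
  refine Finset.sum_congr rfl fun k hk => ?_
  have hk' : k ≤ d := by simpa [Nat.lt_succ_iff] using hk
  rw [coeff_C_mul]
  split_ifs with he
  · obtain ⟨m, hm⟩ := he
    have hm2 : k / 2 = m := by omega
    rw [hm2]
    have hd : d = m * 2 + (d - k) := by omega
    have : (X ^ (d - k) * (1 - X ^ 2) ^ m : ℝ[X]).coeff d = (-1) ^ m := by
      conv_lhs => rw [mul_comm]
      rw [hd]
      have hdk : m * 2 + (d - k) - k = d - k := by omega
      rw [hdk, coeff_mul_X_pow, coeff_pow_of_natDegree_le natDegree_q, coeff_q]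
    rw [this]
    ring
  · simp

theorem eval_PP (c : ℕ → ℝ) (d : ℕ) (x : ℝ) : (PP c d).eval x =
    ∑ k ∈ Finset.range (d + 1), (d.choose k : ℝ) * c k *
      (if Even k then x ^ (d - k) * (1 - x ^ 2) ^ (k / 2) else 0) := by
  unfold PP
  rw [eval_finsetSum]
  refine Finset.sum_congr rfl fun k hk => ?_
  split_ifs with he <;> simp

theorem re_I_pow (k : ℕ) : (Complex.I ^ k).re = if Even k then (-1 : ℝ) ^ (k / 2) else 0 := by
  split_ifs with he
  · obtain ⟨m, hm⟩ := he
    have hm2 : k / 2 = m := by omega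
    have : Complex.I ^ k = (((-1 : ℝ) ^ m : ℝ) : ℂ) := by
      rw [hm, ← two_mul, pow_mul, Complex.I_sq]; push_cast; rfl
    rw [this, hm2, Complex.ofReal_re]
  · obtain ⟨m, hm⟩ := Nat.not_even_iff_odd.mp he
    have : Complex.I ^ k = (((-1 : ℝ) ^ m : ℝ) : ℂ) * Complex.I := by
      rw [hm, pow_succ, pow_mul, Complex.I_sq]; push_cast; rfl
    rw [this, Complex.re_ofReal_mul, Complex.I_re, mul_zero]

theorem poly (hrot : S_rot) : S_poly := by
  intro n hn v w hv hw hvw t d
  refine ⟨fun j => (PP (fun k => MM t v w d k) d).coeff j, ?_⟩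
  intro e u he hu
  obtain ⟨w', β, hw', huw', hdec, hβ⟩ := exists_decomp hn he hu
  rw [KI_eq t hdec d]
  have h1 : mult t v w d = (PP (fun k => MM t v w d k) d).coeff d := by
    rw [mult_eq, coeff_PP]
    refine Finset.sum_congr rfl fun k hk => ?_
    rw [re_I_pow]
  rw [h1]
  have h2 : (PP (fun k => MM t v w d k) d).coeff d * (inner ℝ e u) ^ d +
      ∑ j ∈ Finset.range d, (PP (fun k => MM t v w d k) d).coeff j * (inner ℝ e u) ^ j
      = (PP (fun k => MM t v w d k) d).eval (inner ℝ e u) := by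
    rw [eval_eq_sum_range' (Nat.lt_succ_of_le (natDegree_PP _ d)), Finset.sum_range_succ, add_comm]
  rw [h2, eval_PP]
  refine Finset.sum_congr rfl fun k hk => ?_
  rw [MM_rot hrot hn hv hw hvw hu hw' huw' t d k]
  split_ifs with hk2
  · obtain ⟨m, hm⟩ := hk2
    have hm2 : k / 2 = m := by omega
    have : β ^ k = (1 - (inner ℝ e u) ^ 2) ^ m := by
      rw [hm, ← two_mul, pow_mul, hβ]
    rw [hm2, this]
    ring
  · rw [MM_odd hrot hn hv hw hvw t d k (Nat.not_even_iff_odd.mp hk2)]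
    simp

end Pool.Agent.Helper12.LR.Pol
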